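import Pool.Agent.W901.RL.Stm

/-!
# Induction over the blocks of the random tape
-/

set_option autoImplicit false

namespace Pool.Agent.W790.RL

open Pool.Agent.W901.RL

/-- the strings of length `n` -/
noncomputable def Str (n : ℕ) : Finset (List Bool) := (List.finite_length_eq Bool n).toFinset

theorem mem_Str {n : ℕ} {r : List Bool} : r ∈ Str n ↔ r.length = n := by
  simp [Str]

/-- the number of strings of length `n` with the property `P` -/
noncomputable def nb (n : ℕ) (P : List Bool → Prop) : ℕ := {ρ : List Bool | ρ.length = n ∧ P ρ}.ncard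

theorem nb_eq (n : ℕ) (P : List Bool → Prop) [DecidablePred P] :
    nb n P = ((Str n).filter P).card := by
  unfold nb
  rw [← Set.ncard_coe_finset]
  congr 1
  ext ρ
  simp [mem_Str]

theorem nb_congr {n : ℕ} {P Q : List Bool → Prop} (h : ∀ ρ, ρ.length = n → (P ρ ↔ Q ρ)) :
    nb n P = nb n Q := by
  unfold nb
  congr 1
  ext ρ
  exact and_congr_right fun hρ => h ρ hρ

theorem nb_app (a b : ℕ) (P : List Bool → List Bool → Prop) :
    nb (a + b) (fun ρ => P (ρ.take a) (ρ.drop a)) = ∑ r ∈ Str a, nb b (P r) := by
  classical
  have h1 : ((Str (a + b)).filter (fun ρ => P (ρ.take a) (ρ.drop a))).card =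
      ((Str a ×ˢ Str b).filter (fun q => P q.1 q.2)).card := by
    refine Finset.card_bij (fun ρ _ => (ρ.take a, ρ.drop a)) ?_ ?_ ?_
    · intro ρ hρ
      rw [Finset.mem_filter, mem_Str] at hρ
      rw [Finset.mem_filter, Finset.mem_product, mem_Str, mem_Str]
      refine ⟨⟨?_, ?_⟩, hρ.2⟩
      · rw [List.length_take, hρ.1]; omega
      · rw [List.length_drop, hρ.1]; omega
    · intro ρ _ ρ' _ h
      have h1 := congrArg Prod.fst h
      have h2 := congrArg Prod.snd h
      simp only at h1 h2
      rw [← List.take_append_drop a ρ, h1, h2, List.take_append_drop]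
    · rintro ⟨r, s⟩ hq
      rw [Finset.mem_filter, Finset.mem_product, mem_Str, mem_Str] at hq
      obtain ⟨⟨hr, hs⟩, hP⟩ := hq
      simp only at hr hs hP
      refine ⟨r ++ s, ?_, ?_⟩
      · rw [Finset.mem_filter, mem_Str, List.length_append]
        refine ⟨by omega, ?_⟩
        rw [List.take_left' hr, List.drop_left' hr]
        exact hP
      · rw [List.take_left' hr, List.drop_left' hr]
  rw [nb_eq, h1, Finset.card_filter, Finset.sum_product]
  refine Finset.sum_congr rfl fun r _ => ?_
  rw [nb_eq, Finset.card_filter]

theorem nb_true (n : ℕ) : nb n (fun _ => True) = (Str n).card := by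
  classical
  rw [nb_eq]
  congr 1
  exact Finset.filter_true_of_mem fun _ _ => trivial

theorem nb_le (n : ℕ) (P : List Bool → Prop) : nb n P ≤ (Str n).card := by
  classical
  rw [nb_eq]
  exact Finset.card_filter_le _ _

theorem card_Str (n : ℕ) : (Str n).card = 2 ^ n := by
  classical
  induction n with
  | zero =>
    have : Str 0 = {[]} := by
      ext r
      rw [mem_Str, Finset.mem_singleton, List.length_eq_zero_iff]
    rw [this]
    simp
  | succ n ih =>
    have h := nb_app n 1 (fun _ _ => True)
    rw [nb_true] at h
    simp only [nb_true] at h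
    have h1 : (Str 1).card = 2 := by
      have : Str 1 = {[true], [false]} := by
        ext r
        rw [mem_Str, List.length_eq_one_iff]
        simp only [Finset.mem_insert, Finset.mem_singleton]
        constructor
        · rintro ⟨b, rfl⟩
          cases b <;> simp
        · rintro (rfl | rfl) <;> simp
      rw [this]
      rfl
    rw [h, h1, Finset.sum_const, ih, smul_eq_mul, pow_succ]

theorem run_take {S : Type} (f : ℕ → List Bool → S → S) (s0 : S) (B T : ℕ) (ρ : List Bool) :
    ∀ T' ≤ T, (List.range T').foldl (fun s t => f t (blk B t (ρ.take (T * B))) s) s0 =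
      (List.range T').foldl (fun s t => f t (blk B t ρ) s) s0 := by
  intro T'
  induction T' with
  | zero => intro _; rfl
  | succ t ih =>
    intro h
    rw [List.range_succ, List.foldl_append, List.foldl_append, ih (by omega)]
    simp only [List.foldl_cons, List.foldl_nil]
    congr 1
    unfold blk
    rw [List.drop_take, List.take_take]
    congr 1
    have h1 : (t + 1) * B ≤ T * B := Nat.mul_le_mul_right B h
    have h2 : (t + 1) * B = t * B + B := by ring
    omega

theorem IND : S_IND := by
  classical
  intro S f s0 Good B T K h0 hstep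
  change K * nb (T * B) (fun ρ =>
    ¬ Good T ((List.range T).foldl (fun s t => f t (blk B t ρ) s) s0)) ≤ T * 2 ^ (T * B)
  have hstep' : ∀ t < T, ∀ s, Good t s → K * nb B (fun σ => ¬ Good (t + 1) (f t σ s)) ≤ 2 ^ B :=
    hstep
  clear hstep
  induction T with
  | zero =>
    have : nb (0 * B) (fun ρ =>
        ¬ Good 0 ((List.range 0).foldl (fun s t => f t (blk B t ρ) s) s0)) = 0 := by
      rw [nb_eq, Finset.card_eq_zero, Finset.filter_eq_empty_iff]
      intro ρ _
      simp only [List.range_zero, List.foldl_nil, not_not]
      exact h0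
    rw [this]
    simp
  | succ T ih =>
    have ih' := ih fun t ht => hstep' t (by omega)
    set run : List Bool → S := fun ρ => (List.range T).foldl (fun s t => f t (blk B t ρ) s) s0
      with hrun
    have hE : nb ((T + 1) * B) (fun ρ => ¬ Good (T + 1)
        ((List.range (T + 1)).foldl (fun s t => f t (blk B t ρ) s) s0)) =
        ∑ r ∈ Str (T * B), nb B (fun s => ¬ Good (T + 1) (f T s (run r))) := by
      rw [← nb_app (T * B) B (fun r s => ¬ Good (T + 1) (f T s (run r))),
        show (T + 1) * B = T * B + B by ring]
      apply nb_congr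
      intro ρ hρ
      rw [List.range_succ, List.foldl_append]
      simp only [List.foldl_cons, List.foldl_nil]
      have h1 : blk B T ρ = ρ.drop (T * B) := by
        unfold blk
        rw [List.take_of_length_le]
        rw [List.length_drop, hρ]
        omega
      have h2 : run (ρ.take (T * B)) = (List.range T).foldl (fun s t => f t (blk B t ρ) s) s0 :=
        run_take f s0 B T ρ T le_rfl
      rw [h1, h2]
    rw [hE, Finset.mul_sum]
    have hb : ∀ r ∈ Str (T * B), K * nb B (fun s => ¬ Good (T + 1) (f T s (run r))) ≤
        2 ^ B + (if ¬ Good T (run r) then K * 2 ^ B else 0) := by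
      intro r _
      by_cases hg : Good T (run r)
      · rw [if_neg (not_not.2 hg)]
        exact hstep' T (by omega) (run r) hg
      · rw [if_pos hg]
        have h1 : nb B (fun s => ¬ Good (T + 1) (f T s (run r))) ≤ 2 ^ B := by
          rw [← card_Str B]
          exact nb_le _ _
        calc K * _ ≤ K * 2 ^ B := Nat.mul_le_mul_left K h1
          _ ≤ _ := Nat.le_add_left _ _
    have hif : ∑ r ∈ Str (T * B), (if ¬ Good T (run r) then K * 2 ^ B else 0) =
        K * nb (T * B) (fun ρ => ¬ Good T (run ρ)) * 2 ^ B := by
      rw [← Finset.sum_filter, Finset.sum_const, smul_eq_mul, nb_eq]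
      ring
    calc _ ≤ ∑ r ∈ Str (T * B), (2 ^ B + (if ¬ Good T (run r) then K * 2 ^ B else 0)) :=
          Finset.sum_le_sum hb
      _ = 2 ^ (T * B) * 2 ^ B + K * nb (T * B) (fun ρ => ¬ Good T (run ρ)) * 2 ^ B := by
          rw [Finset.sum_add_distrib, Finset.sum_const, card_Str, smul_eq_mul, hif]
      _ ≤ 2 ^ (T * B) * 2 ^ B + T * 2 ^ (T * B) * 2 ^ B :=
          Nat.add_le_add_left (Nat.mul_le_mul_right _ ih') _
      _ = (T + 1) * 2 ^ ((T + 1) * B) := by
          rw [show (T + 1) * B = T * B + B by ring, pow_add]; ring

end Pool.Agent.W790.RL
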