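import Pool.Agent.W901.RL.Stm2
import Pool.Agent.W462.RL.TW

/-!
# Moments of signed sums of labels
-/

set_option autoImplicit false

namespace Pool.Agent.W790.RL

open Finset Pool.Agent.NPC Pool.Agent.H579R2.Spt Pool.Agent.H251R5.PQ Pool.Agent.W901.AT
open Pool.Agent.W901.RL

section LMOM

variable {q : ℕ} (p : ℕ) (u : Fin q → List Bool) (e : Fin q → ℤ)

/-- the signed label -/
def Xl (l : Fin q) (s : List Bool) : ℤ := e l * sg (lbl p s (u l))

/-- the mixed moment -/
noncomputable def Mm {n : ℕ} (f : Fin n → Fin q) : ℤ :=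
  ∑ s ∈ BL (p * p), ∏ a, Xl p u e (f a) s

theorem sg_sq (b : Bool) : sg b * sg b = 1 := by
  cases b <;> rfl

theorem Xl_sq (he : ∀ l, e l = 1 ∨ e l = -1) (l : Fin q) (s : List Bool) :
    Xl p u e l s * Xl p u e l s = 1 := by
  unfold Xl
  rcases he l with h | h
  · rw [h, one_mul, sg_sq]
  · rw [h, neg_one_mul, neg_mul_neg, sg_sq]

theorem xor_xor_list : ∀ (x y : List Bool), x.length = y.length →
    List.zipWith xor (List.zipWith xor x y) y = x := by
  intro x
  induction x with
  | nil => intro y _; simp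
  | cons b x ih =>
    intro y hy
    cases y with
    | nil => simp at hy
    | cons c y =>
      rw [List.zipWith_cons_cons, List.zipWith_cons_cons, ih y (by simpa using hy)]
      simp

theorem Mm_zero {j k : ℕ} (hp : p.Prime) (hkj : 2 * k * j < p) (hu : Function.Injective u)
    (hj : ∀ l, (u l).length = j) {n : ℕ} (hn : n + 1 ≤ 2 * k) (f : Fin (n + 1) → Fin q)
    (hf : ∀ a : Fin n, f a.succ ≠ f 0) : Mm p u e f = 0 := by
  classical
  obtain ⟨s₀, hs₀, hs⟩ := Pool.Agent.W462.RL.sep p (2 * k) j (univ.image fun a => u (f a)) (u (f 0)) hp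
    (fun v hv => by
      rw [Finset.mem_image] at hv
      obtain ⟨l, _, rfl⟩ := hv
      exact hj _)
    (Finset.mem_image_of_mem _ (Finset.mem_univ 0))
    (by
      refine Finset.card_image_le.trans ?_
      rw [Finset.card_univ, Fintype.card_fin]
      exact hn) hkj
  have h0 : lbl p s₀ (u (f 0)) = true :=
    (hs (u (f 0)) (Finset.mem_image_of_mem _ (Finset.mem_univ 0))).2 rfl
  have h1 : ∀ a : Fin n, lbl p s₀ (u (f a.succ)) = false := by
    intro a
    have h2 := hs (u (f a.succ)) (Finset.mem_image_of_mem (fun a => u (f a)) (Finset.mem_univ a.succ))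
    by_contra h3
    exact hf a (hu (h2.1 (by simpa using h3)))
  let τ : List Bool → List Bool := fun s => List.zipWith xor s s₀
  have hτmem : ∀ s ∈ BL (p * p), τ s ∈ BL (p * p) := by
    intro s hs
    rw [mem_BL] at hs ⊢
    simp only [τ, List.length_zipWith, hs, hs₀, min_self]
  have hττ : ∀ s ∈ BL (p * p), τ (τ s) = s := by
    intro s hs
    rw [mem_BL] at hs
    exact xor_xor_list s s₀ (by rw [hs, hs₀])
  have hτl : ∀ s ∈ BL (p * p), ∀ v, lbl p (τ s) v = xor (lbl p s v) (lbl p s₀ v) := by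
    intro s hs v
    rw [mem_BL] at hs
    exact Pool.Agent.W462.RL.ip_xor s s₀ _ (by rw [hs, hs₀])
  have hneg : Mm p u e f = - Mm p u e f := by
    unfold Mm
    rw [← Finset.sum_neg_distrib]
    refine Finset.sum_bij' (fun s _ => τ s) (fun s _ => τ s) hτmem hτmem hττ hττ ?_
    intro s hs'
    rw [Fin.prod_univ_succ, Fin.prod_univ_succ]
    have e1 : Xl p u e (f 0) (τ s) = - Xl p u e (f 0) s := by
      unfold Xl
      rw [hτl s hs', h0]
      cases lbl p s (u (f 0)) <;> simp [sg]
    have e2 : ∀ a : Fin n, Xl p u e (f a.succ) (τ s) = Xl p u e (f a.succ) s := by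
      intro a
      unfold Xl
      rw [hτl s hs', h1, Bool.xor_false]
    rw [e1, Finset.prod_congr rfl fun a _ => e2 a]
    ring
  omega

theorem Mm_pair (he : ∀ l, e l = 1 ∨ e l = -1) {n : ℕ} (f : Fin (n + 2) → Fin q)
    (a : Fin (n + 1)) (h : f a.succ = f 0) :
    Mm p u e f = Mm p u e (fun b => f (a.succAbove b).succ) := by
  unfold Mm
  refine Finset.sum_congr rfl fun s _ => ?_
  rw [Fin.prod_univ_succ, Fin.prod_univ_succAbove _ a, h, ← mul_assoc, Xl_sq p u e he, one_mul]

theorem Mm_nonneg {j k : ℕ} (hp : p.Prime) (hkj : 2 * k * j < p) (hu : Function.Injective u)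
    (hj : ∀ l, (u l).length = j) (he : ∀ l, e l = 1 ∨ e l = -1) :
    ∀ n : ℕ, n ≤ 2 * k → ∀ f : Fin n → Fin q, 0 ≤ Mm p u e f := by
  intro n
  induction n using Nat.strong_induction_on with
  | _ n ih =>
    intro hn f
    match n, ih, hn, f with
    | 0, _, _, f =>
      unfold Mm
      exact Finset.sum_nonneg fun s _ => by simp
    | 1, _, hn, f =>
      rw [Mm_zero p u e hp hkj hu hj hn f (fun a => a.elim0)]
    | n + 2, ih, hn, f =>
      by_cases h : ∃ a : Fin (n + 1), f a.succ = f 0
      · obtain ⟨a, ha⟩ := h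
        rw [Mm_pair p u e he f a ha]
        exact ih n (by omega) (by omega) _
      · push Not at h
        rw [Mm_zero p u e hp hkj hu hj hn f h]

theorem sum_pair {n : ℕ} (G : (Fin n → Fin q) → ℤ) (a : Fin (n + 1)) :
    ∑ f : Fin (n + 2) → Fin q, (if f a.succ = f 0 then G (fun b => f (a.succAbove b).succ) else 0) =
      q * ∑ g, G g := by
  have h1 : ∑ f : Fin (n + 2) → Fin q,
      (if f a.succ = f 0 then G (fun b => f (a.succAbove b).succ) else 0) =
      ∑ x : Fin q × (Fin (n + 1) → Fin q),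
        (if x.2 a = x.1 then G (fun b => x.2 (a.succAbove b)) else 0) := by
    symm
    refine Fintype.sum_equiv (Fin.consEquiv fun _ => Fin q) _ _ fun x => ?_
    simp [Fin.consEquiv]
  have h2 : ∀ G' : (Fin (n + 1) → Fin q) → ℤ, ∑ h : Fin (n + 1) → Fin q, G' h =
      ∑ x : Fin q × (Fin n → Fin q), G' (a.insertNth x.1 x.2) := by
    intro G'
    symm
    exact Fintype.sum_equiv (Fin.insertNthEquiv (fun _ => Fin q) a) _ _ fun x => rfl
  rw [h1, Fintype.sum_prod_type, Finset.sum_comm]
  have h3 : ∀ h : Fin (n + 1) → Fin q, ∑ l : Fin q,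
      (if h a = l then G (fun b => h (a.succAbove b)) else 0) = G (fun b => h (a.succAbove b)) := by
    intro h
    simp
  rw [Finset.sum_congr rfl fun h _ => h3 h, h2, Fintype.sum_prod_type]
  simp

theorem sum_rec {j k : ℕ} (hp : p.Prime) (hkj : 2 * k * j < p) (hu : Function.Injective u)
    (hj : ∀ l, (u l).length = j) (he : ∀ l, e l = 1 ∨ e l = -1) {n : ℕ} (hn : n + 2 ≤ 2 * k) :
    ∑ f : Fin (n + 2) → Fin q, Mm p u e f ≤ (n + 1 : ℕ) * (q * ∑ g : Fin n → Fin q, Mm p u e g) := by
  have h1 : ∀ f : Fin (n + 2) → Fin q, Mm p u e f ≤ ∑ a : Fin (n + 1),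
      (if f a.succ = f 0 then Mm p u e (fun b => f (a.succAbove b).succ) else 0) := by
    intro f
    have hnn : ∀ a : Fin (n + 1), 0 ≤
        (if f a.succ = f 0 then Mm p u e (fun b => f (a.succAbove b).succ) else 0) := by
      intro a
      split_ifs
      · exact Mm_nonneg p u e hp hkj hu hj he n (by omega) _
      · exact le_rfl
    by_cases h : ∃ a : Fin (n + 1), f a.succ = f 0
    · obtain ⟨a, ha⟩ := h
      rw [Mm_pair p u e he f a ha]
      have := Finset.single_le_sum (f := fun a : Fin (n + 1) =>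
        (if f a.succ = f 0 then Mm p u e (fun b => f (a.succAbove b).succ) else 0))
        (fun a _ => hnn a) (Finset.mem_univ a)
      simp only [ha, if_true] at this
      exact this
    · push Not at h
      rw [Mm_zero p u e hp hkj hu hj hn f h]
      exact Finset.sum_nonneg fun a _ => hnn a
  calc ∑ f : Fin (n + 2) → Fin q, Mm p u e f ≤ ∑ f : Fin (n + 2) → Fin q, ∑ a : Fin (n + 1),
      (if f a.succ = f 0 then Mm p u e (fun b => f (a.succAbove b).succ) else 0) :=
        Finset.sum_le_sum fun f _ => h1 f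
    _ = ∑ a : Fin (n + 1), ∑ f : Fin (n + 2) → Fin q,
      (if f a.succ = f 0 then Mm p u e (fun b => f (a.succAbove b).succ) else 0) := Finset.sum_comm
    _ = ∑ _a : Fin (n + 1), (q * ∑ g : Fin n → Fin q, Mm p u e g) :=
        Finset.sum_congr rfl fun a _ => sum_pair (fun g => Mm p u e g) a
    _ = _ := by simp

theorem sum_le {j k : ℕ} (hp : p.Prime) (hkj : 2 * k * j < p) (hu : Function.Injective u)
    (hj : ∀ l, (u l).length = j) (he : ∀ l, e l = 1 ∨ e l = -1) :
    ∀ i : ℕ, i ≤ k → ∑ f : Fin (2 * i) → Fin q, Mm p u e f ≤ 2 ^ (p * p) * (2 * i * q : ℤ) ^ i := by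
  intro i
  induction i with
  | zero =>
    intro _
    have h : ∑ f : Fin (2 * 0) → Fin q, Mm p u e f = 2 ^ (p * p) := by
      have h1 : ∀ f : Fin (2 * 0) → Fin q, Mm p u e f = 2 ^ (p * p) := by
        intro f
        unfold Mm
        rw [← card_BL]
        rw [Finset.card_eq_sum_ones]
        push_cast
        refine Finset.sum_congr rfl fun s _ => ?_
        exact Finset.prod_eq_one fun a _ => absurd a.2 (by omega)
      rw [Finset.sum_congr rfl fun f _ => h1 f, Finset.sum_const, Finset.card_univ]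
      simp
    rw [h]
    simp
  | succ i ih =>
    intro hi
    have h1 := ih (by omega)
    have h2 := sum_rec p u e hp hkj hu hj he (n := 2 * i) (by omega)
    have hq : (0 : ℤ) ≤ q := Int.natCast_nonneg _
    have hi0 : (0 : ℤ) ≤ i := Int.natCast_nonneg _
    have hN : (0 : ℤ) ≤ 2 ^ (p * p) := by positivity
    calc ∑ f : Fin (2 * (i + 1)) → Fin q, Mm p u e f
        ≤ ((2 * i + 1 : ℕ) : ℤ) * (q * ∑ g : Fin (2 * i) → Fin q, Mm p u e g) := h2
      _ ≤ ((2 * i + 1 : ℕ) : ℤ) * (q * (2 ^ (p * p) * (2 * i * q : ℤ) ^ i)) := by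
          apply mul_le_mul_of_nonneg_left _ (Int.natCast_nonneg _)
          exact mul_le_mul_of_nonneg_left h1 hq
      _ ≤ (2 * (i + 1)) * (q * (2 ^ (p * p) * (2 * (i + 1) * q : ℤ) ^ i)) := by
          have a1 : ((2 * i + 1 : ℕ) : ℤ) ≤ 2 * (i + 1) := by push_cast; linarith
          have a2 : (2 * i * q : ℤ) ^ i ≤ (2 * (i + 1) * q : ℤ) ^ i := by
            apply pow_le_pow_left₀ (by positivity)
            nlinarith
          have a3 : (q : ℤ) * (2 ^ (p * p) * (2 * i * q : ℤ) ^ i) ≤
              q * (2 ^ (p * p) * (2 * (i + 1) * q : ℤ) ^ i) :=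
            mul_le_mul_of_nonneg_left (mul_le_mul_of_nonneg_left a2 hN) hq
          exact mul_le_mul a1 a3 (by positivity) (by positivity)
      _ = 2 ^ (p * p) * (2 * ((i + 1 : ℕ) : ℤ) * q) ^ (i + 1) := by
          push_cast
          ring

end LMOM

theorem LMOM : S_LMOM := by
  intro p j k q u e hp hkj hu hj he
  have h := sum_le p u e hp hkj hu hj he k le_rfl
  refine le_trans (le_of_eq ?_) h
  unfold Mm
  rw [Finset.sum_comm]
  refine Finset.sum_congr rfl fun s _ => ?_
  exact Fintype.sum_pow (fun l => Xl p u e l s) (2 * k)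

end Pool.Agent.W790.RL
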